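import Mathlib

/-! The free group on two letters has infinite commutator width (counting quasimorphism). -/

set_option autoImplicit false

namespace Pool.Agent.N799.PW

open scoped commutatorElement

abbrev Lt := Fin 2 × Bool

/-- the weight of a pair of letters: `1` for `x y`, `-1` for `y⁻¹ x⁻¹` -/
def ka (a b : Lt) : ℤ :=
  if a = (0, true) ∧ b = (1, true) then 1 else if a = (1, false) ∧ b = (0, false) then -1 else 0

/-- the number of pairs `x y` minus the number of pairs `y⁻¹ x⁻¹` -/
def cnt : List Lt → ℤ
  | [] => 0
  | [_] => 0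
  | a :: b :: l => ka a b + cnt (b :: l)

lemma ka_abs (a b : Lt) : |ka a b| ≤ 1 := by
  unfold ka
  split_ifs <;> simp

lemma cnt_append (u v : List Lt) : ∃ k : ℤ, |k| ≤ 1 ∧ cnt (u ++ v) = cnt u + cnt v + k := by
  induction u with
  | nil => exact ⟨0, by simp, by simp [cnt]⟩
  | cons a u ih =>
    rcases u with _ | ⟨b, u⟩
    · rcases v with _ | ⟨c, v⟩
      · exact ⟨0, by simp, by simp [cnt]⟩
      · exact ⟨ka a c, ka_abs _ _, by simp [cnt]; ring⟩
    · obtain ⟨k, hk, h⟩ := ih
      refine ⟨k, hk, ?_⟩
      simp only [List.cons_append, cnt] at h ⊢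
      rw [h]
      ring

lemma ka_inv (a b : Lt) : ka (b.1, !b.2) (a.1, !a.2) = - ka a b := by
  revert a b
  decide

lemma cnt_snoc (u : List Lt) (a b : Lt) : cnt (u ++ [a, b]) = cnt (u ++ [a]) + ka a b := by
  induction u with
  | nil => simp [cnt]
  | cons c u ih =>
    rcases u with _ | ⟨d, u⟩
    · simp [cnt]
    · simp only [List.cons_append, cnt] at ih ⊢
      rw [ih]
      ring

lemma cnt_invRev (u : List Lt) : cnt (FreeGroup.invRev u) = - cnt u := by
  induction u with
  | nil => simp [cnt, FreeGroup.invRev]
  | cons a u ih =>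
    rcases u with _ | ⟨b, u⟩
    · simp [cnt, FreeGroup.invRev]
    · simp only [FreeGroup.invRev, List.map_cons, List.reverse_cons, List.append_assoc,
        List.cons_append, List.nil_append] at ih ⊢
      rw [cnt_snoc, ih, ka_inv]
      simp only [cnt]
      ring

/-- the decomposition of a product of two reduced words -/
lemma decomp (p q : List Lt) (hp : FreeGroup.IsReduced p) (hq : FreeGroup.IsReduced q) :
    ∃ u v w : List Lt, p = u ++ v ∧ q = FreeGroup.invRev v ++ w ∧ FreeGroup.reduce (p ++ q) = u ++ w := by
  induction p using List.reverseRecOn generalizing q with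
  | nil => exact ⟨[], [], q, rfl, rfl, by simpa using hq.reduce_eq⟩
  | append_singleton p a ih =>
    rcases q with _ | ⟨b, q⟩
    · refine ⟨p ++ [a], [], [], by simp, by simp [FreeGroup.invRev], ?_⟩
      rw [List.append_nil, hp.reduce_eq]
    · by_cases hab : a.1 = b.1 ∧ a.2 ≠ b.2
      · have hp' : FreeGroup.IsReduced p := (List.isChain_append.1 hp).1
        have hq' : FreeGroup.IsReduced q := by
          have h0 : FreeGroup.IsReduced ([b] ++ q) := hq
          exact (List.isChain_append.1 h0).2.1
        obtain ⟨u, v, w, h1, h2, h3⟩ := ih q hp' hq'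
        refine ⟨u, v ++ [a], w, ?_, ?_, ?_⟩
        · rw [h1, List.append_assoc]
        · rw [h2]
          simp only [FreeGroup.invRev, List.map_append, List.map_cons, List.map_nil,
            List.reverse_append, List.reverse_cons, List.reverse_nil, List.nil_append,
            List.cons_append]
          congr 1
          ext
          · simp [hab.1]
          · have := hab.2
            revert this
            rcases a with ⟨a1, a2⟩
            rcases b with ⟨b1, b2⟩
            cases a2 <;> cases b2 <;> simp
        · rw [← h3]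
          apply FreeGroup.reduce.Step.eq
          have e : (p ++ [a]) ++ b :: q = p ++ (a.1, a.2) :: (a.1, !a.2) :: q := by
            simp only [List.append_assoc, List.cons_append, List.nil_append]
            congr 3
            ext
            · simp [hab.1]
            · have := hab.2
              revert this
              rcases a with ⟨a1, a2⟩
              rcases b with ⟨b1, b2⟩
              cases a2 <;> cases b2 <;> simp
          rw [e]
          exact FreeGroup.Red.Step.not
      · refine ⟨p ++ [a], [], b :: q, by simp, by simp [FreeGroup.invRev], ?_⟩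
        have : FreeGroup.IsReduced (p ++ [a] ++ b :: q) := by
          unfold FreeGroup.IsReduced at hp hq ⊢
          rw [List.isChain_append]
          refine ⟨hp, hq, ?_⟩
          intro x hx y hy
          simp at hx hy
          subst hx
          subst hy
          intro h
          by_contra h'
          exact hab ⟨h, h'⟩
        exact this.reduce_eq

/-- the counting quasimorphism -/
def phi (g : FreeGroup (Fin 2)) : ℤ := cnt g.toWord

lemma phi_inv (g : FreeGroup (Fin 2)) : phi g⁻¹ = - phi g := by
  unfold phi
  rw [FreeGroup.toWord_inv, cnt_invRev]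

lemma phi_mul (g h : FreeGroup (Fin 2)) : |phi (g * h) - phi g - phi h| ≤ 3 := by
  obtain ⟨u, v, w, h1, h2, h3⟩ := decomp g.toWord h.toWord FreeGroup.isReduced_toWord
    FreeGroup.isReduced_toWord
  unfold phi
  rw [FreeGroup.toWord_mul, h3, h1, h2]
  obtain ⟨k1, hk1, e1⟩ := cnt_append u w
  obtain ⟨k2, hk2, e2⟩ := cnt_append u v
  obtain ⟨k3, hk3, e3⟩ := cnt_append (FreeGroup.invRev v) w
  rw [e1, e2, e3, cnt_invRev]
  rw [abs_le] at hk1 hk2 hk3 ⊢
  constructor <;> linarith [hk1.1, hk1.2, hk2.1, hk2.2, hk3.1, hk3.2]

lemma phi_commutator (g : FreeGroup (Fin 2)) (hg : g ∈ commutatorSet (FreeGroup (Fin 2))) :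
    |phi g| ≤ 9 := by
  obtain ⟨a, b, rfl⟩ := hg
  rw [commutatorElement_def]
  have h1 := phi_mul a b
  have h2 := phi_mul (a * b) a⁻¹
  have h3 := phi_mul (a * b * a⁻¹) b⁻¹
  rw [phi_inv] at h2 h3
  rw [abs_le] at h1 h2 h3 ⊢
  constructor <;> linarith [h1.1, h1.2, h2.1, h2.2, h3.1, h3.2]

lemma phi_prod (l : List (FreeGroup (Fin 2))) (hl : ∀ c ∈ l, c ∈ commutatorSet (FreeGroup (Fin 2))) :
    |phi l.prod| ≤ 12 * l.length := by
  induction l with
  | nil => simp [phi, cnt]
  | cons c l ih =>
    have h1 := ih (fun d hd => hl d (List.mem_cons_of_mem _ hd))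
    have h2 := phi_commutator c (hl c List.mem_cons_self)
    have h3 := phi_mul c l.prod
    rw [List.prod_cons, List.length_cons]
    push_cast
    rw [abs_le] at h1 h2 h3 ⊢
    constructor <;> linarith [h1.1, h1.2, h2.1, h2.2, h3.1, h3.2]

/-- the word `x y x⁻¹ y⁻¹` -/
def W : List Lt := [(0, true), (1, true), (0, false), (1, false)]

lemma cnt_W (k : ℕ) : cnt (List.replicate k W).flatten = k := by
  induction k with
  | zero => simp [cnt]
  | succ k ih =>
    rw [List.replicate_succ, List.flatten_cons]
    rcases k with _ | k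
    · simp [W, cnt, ka]
    · rw [List.replicate_succ, List.flatten_cons] at ih ⊢
      simp only [W, List.cons_append, List.nil_append, cnt] at ih ⊢
      have e1 : ka (0, true) (1, true) = 1 := by decide
      have e2 : ka (1, true) (0, false) = 0 := by decide
      have e3 : ka (0, false) (1, false) = 0 := by decide
      have e4 : ka (1, false) (0, true) = 0 := by decide
      rw [e1, e2, e3] at ih
      rw [e1, e2, e3, e4]
      push_cast at ih ⊢
      linarith

lemma phi_W (k : ℕ) : phi ((FreeGroup.mk W) ^ k) = k := by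
  have h1 : FreeGroup.IsCyclicallyReduced W := by
    rw [FreeGroup.isCyclicallyReduced_iff]
    constructor
    · unfold FreeGroup.IsReduced W
      simp
    · simp [W]
  have h2 := (h1.flatten_replicate k).isReduced
  unfold phi
  rw [FreeGroup.pow_mk, FreeGroup.toWord_mk, h2.reduce_eq, cnt_W]

/-- the commutator width of the free group of rank two is infinite -/
lemma cw_infinite : ¬ ∃ n : ℕ, ∀ g ∈ commutator (FreeGroup (Fin 2)), ∃ l : List (FreeGroup (Fin 2)),
    l.length ≤ n ∧ (∀ c ∈ l, c ∈ commutatorSet (FreeGroup (Fin 2))) ∧ l.prod = g := by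
  rintro ⟨n, hn⟩
  have hW : FreeGroup.mk W ∈ commutator (FreeGroup (Fin 2)) := by
    have e : FreeGroup.mk W = ⁅(FreeGroup.of 0 : FreeGroup (Fin 2)), FreeGroup.of 1⁆ := by
      rw [commutatorElement_def]
      rfl
    rw [e]
    exact Subgroup.commutator_mem_commutator (Subgroup.mem_top _) (Subgroup.mem_top _)
  obtain ⟨l, hl1, hl2, hl3⟩ := hn (FreeGroup.mk W ^ (12 * n + 1)) (pow_mem hW _)
  have h1 := phi_prod l hl2
  rw [hl3, phi_W] at h1
  have h2 : (l.length : ℤ) ≤ n := by exact_mod_cast hl1
  push_cast at h1
  rw [abs_le] at h1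
  linarith [h1.2]

end Pool.Agent.N799.PW
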