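import Mathlib

/-! Every element of the derived subgroup of the free group on `x, y` is a palindrome in the letters
`x, y, xy` and their inverses. -/

set_option autoImplicit false

namespace Pool.Agent.N799.PW

abbrev F := FreeGroup (Fin 2)

/-- the generators -/
def X : F := FreeGroup.of 0
def Y : F := FreeGroup.of 1

/-- `a` is one of the letters -/
def Letter (a : F) : Prop := a ∈ ({X, Y, X * Y} : Set F) ∨ a⁻¹ ∈ ({X, Y, X * Y} : Set F)

lemma Letter.inv {a : F} (h : Letter a) : Letter a⁻¹ := by
  rcases h with h | h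
  · right; rwa [inv_inv]
  · left; exact h

lemma prod_reverse (u : List F) : u.reverse.prod = ((u.map (fun a => a⁻¹)).prod)⁻¹ := by
  induction u with
  | nil => simp
  | cons a u ih => simp [ih]

/-- the subgroup of the `h` such that `(1, h)` is a product of the pairs `(a, a⁻¹)` -/
def H : Subgroup F where
  carrier := {h | ∃ u : List F, (∀ a ∈ u, Letter a) ∧ u.prod = 1 ∧ (u.map (fun a => a⁻¹)).prod = h}
  mul_mem' := by
    rintro g h ⟨u, hu, hu1, rfl⟩ ⟨v, hv, hv1, rfl⟩
    refine ⟨u ++ v, ?_, ?_, ?_⟩
    · intro a ha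
      rcases List.mem_append.1 ha with ha | ha
      · exact hu a ha
      · exact hv a ha
    · simp [hu1, hv1]
    · simp
  one_mem' := ⟨[], by simp, by simp, by simp⟩
  inv_mem' := by
    rintro h ⟨u, hu, hu1, rfl⟩
    refine ⟨(u.map (fun a => a⁻¹)).reverse, ?_, ?_, ?_⟩
    · intro a ha
      rw [List.mem_reverse, List.mem_map] at ha
      obtain ⟨b, hb, rfl⟩ := ha
      exact (hu b hb).inv
    · rw [prod_reverse, List.map_map]
      simp [Function.comp_def, hu1]
    · rw [List.map_reverse, List.map_map]
      simp only [Function.comp_def, inv_inv, List.map_id']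
      exact prod_reverse u

lemma H_conj (a : F) (ha : Letter a) (h : F) (hh : h ∈ H) : a⁻¹ * h * a ∈ H := by
  obtain ⟨u, hu, hu1, rfl⟩ := hh
  refine ⟨a :: (u ++ [a⁻¹]), ?_, ?_, ?_⟩
  · intro b hb
    simp only [List.mem_cons, List.mem_append, List.not_mem_nil, or_false] at hb
    rcases hb with rfl | hb | rfl
    · exact ha
    · exact hu b hb
    · exact ha.inv
  · simp [hu1]
  · simp [mul_assoc]

lemma letterX : Letter X := Or.inl (by simp)
lemma letterY : Letter Y := Or.inl (by simp)

lemma H_normal : H.Normal := by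
  constructor
  intro h hh g
  induction g using FreeGroup.induction_on generalizing h with
  | C1 => simpa using hh
  | of i =>
    have hl : Letter (FreeGroup.of i) := by
      fin_cases i
      · exact letterX
      · exact letterY
    have := H_conj _ hl.inv h hh
    simpa using this
  | inv_of i _ =>
    have hl : Letter (FreeGroup.of i) := by
      fin_cases i
      · exact letterX
      · exact letterY
    have := H_conj _ hl h hh
    simpa using this
  | mul a b ha hb =>
    have := ha _ (hb h hh)
    simpa [mul_assoc] using this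

lemma comm_mem : X * Y * X⁻¹ * Y⁻¹ ∈ H := by
  refine ⟨[(X * Y)⁻¹, X, Y], ?_, ?_, ?_⟩
  · intro a ha
    simp only [List.mem_cons, List.not_mem_nil, or_false] at ha
    rcases ha with rfl | rfl | rfl
    · right; simp
    · exact letterX
    · exact letterY
  · simp
  · simp [mul_assoc]

lemma commutator_le : commutator F ≤ H := by
  have hn := H_normal
  have hXY : (QuotientGroup.mk' H X) * (QuotientGroup.mk' H Y) =
      (QuotientGroup.mk' H Y) * (QuotientGroup.mk' H X) := by
    rw [← map_mul, ← map_mul]
    have := comm_mem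
    rw [QuotientGroup.mk'_apply, QuotientGroup.mk'_apply, eq_comm, QuotientGroup.eq]
    have h2 := hn.conj_mem _ comm_mem (Y * X)⁻¹
    have e : (Y * X)⁻¹ * (X * Y * X⁻¹ * Y⁻¹) * (Y * X)⁻¹⁻¹ = (Y * X)⁻¹ * (X * Y) := by
      simp [mul_assoc]
    rwa [e] at h2
  have h1 : ∀ g : F, Commute (QuotientGroup.mk' H X) (QuotientGroup.mk' H g) ∧
      Commute (QuotientGroup.mk' H Y) (QuotientGroup.mk' H g) := by
    intro g
    induction g using FreeGroup.induction_on with
    | C1 => simp
    | of i =>
      fin_cases i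
      · exact ⟨Commute.refl _, hXY.symm⟩
      · exact ⟨hXY, Commute.refl _⟩
    | inv_of i ih =>
      rw [map_inv]
      exact ⟨ih.1.inv_right, ih.2.inv_right⟩
    | mul a b ha hb =>
      rw [map_mul]
      exact ⟨ha.1.mul_right hb.1, ha.2.mul_right hb.2⟩
  have h2 : ∀ g h : F, Commute (QuotientGroup.mk' H h) (QuotientGroup.mk' H g) := by
    intro g h
    induction h using FreeGroup.induction_on with
    | C1 => simp
    | of i =>
      fin_cases i
      · exact (h1 g).1
      · exact (h1 g).2
    | inv_of i ih =>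
      rw [map_inv]
      exact ih.inv_left
    | mul a b ha hb =>
      rw [map_mul]
      exact ha.mul_left hb
  rw [commutator_def, Subgroup.commutator_le]
  intro a _ b _
  rw [← QuotientGroup.eq_one_iff]
  have := h2 a b
  rw [commutatorElement_def]
  have e := this.symm.eq
  rw [QuotientGroup.mk'_apply, QuotientGroup.mk'_apply] at e
  rw [QuotientGroup.mk_mul, QuotientGroup.mk_mul, QuotientGroup.mk_mul, e, QuotientGroup.mk_inv,
    QuotientGroup.mk_inv]
  group

/-- every element of the derived subgroup is a palindrome -/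
lemma palindrome (g : F) (hg : g ∈ commutator F) :
    ∃ w : List F, w.reverse = w ∧ (∀ a ∈ w, Letter a) ∧ w.prod = g := by
  have h1 : g⁻¹ ∈ H := commutator_le (inv_mem hg)
  obtain ⟨u, hu, hu1, hu2⟩ := h1
  refine ⟨u ++ u.reverse, by simp, ?_, ?_⟩
  · intro a ha
    rcases List.mem_append.1 ha with ha | ha
    · exact hu a ha
    · exact hu a (List.mem_reverse.1 ha)
  · rw [List.prod_append, hu1, prod_reverse, hu2, one_mul, inv_inv]

lemma power (a : F) (ha : Letter a) (n : ℤ) :
    ∃ w : List F, w.reverse = w ∧ (∀ a ∈ w, Letter a) ∧ w.prod = a ^ n := by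
  rcases Int.eq_nat_or_neg n with ⟨k, rfl | rfl⟩
  · refine ⟨List.replicate k a, by simp, ?_, by simp⟩
    intro b hb
    rw [List.eq_of_mem_replicate hb]
    exact ha
  · refine ⟨List.replicate k a⁻¹, by simp, ?_, by simp⟩
    intro b hb
    rw [List.eq_of_mem_replicate hb]
    exact ha.inv

lemma exists_powers (g : F) : ∃ m n : ℤ, g * (X ^ m * Y ^ n)⁻¹ ∈ commutator F := by
  have key : ∃ m n : ℤ, Abelianization.of g = Abelianization.of (X ^ m * Y ^ n) := by
    induction g using FreeGroup.induction_on with
    | C1 => exact ⟨0, 0, by simp⟩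
    | of i =>
      fin_cases i
      · exact ⟨1, 0, by simp [X]⟩
      · exact ⟨0, 1, by simp [Y]⟩
    | inv_of i ih =>
      obtain ⟨m, n, h⟩ := ih
      refine ⟨-m, -n, ?_⟩
      rw [map_inv, h]
      simp [mul_comm]
    | mul a b ha hb =>
      obtain ⟨m, n, h⟩ := ha
      obtain ⟨m', n', h'⟩ := hb
      refine ⟨m + m', n + n', ?_⟩
      rw [map_mul, h, h']
      simp only [map_mul, map_zpow, zpow_add]
      exact mul_mul_mul_comm _ _ _ _
  obtain ⟨m, n, h⟩ := key
  refine ⟨m, n, ?_⟩
  rw [← Abelianization.ker_of, MonoidHom.mem_ker, map_mul, map_inv, h, mul_inv_cancel]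

/-- the palindromic width is at most three -/
lemma width (g : F) : ∃ L : List (List F), L.length ≤ 3 ∧
    (∀ w ∈ L, w.reverse = w ∧ ∀ x ∈ w, Letter x) ∧ (L.map List.prod).prod = g := by
  obtain ⟨m, n, h⟩ := exists_powers g
  obtain ⟨w, hw1, hw2, hw3⟩ := palindrome _ h
  obtain ⟨u, hu1, hu2, hu3⟩ := power X letterX m
  obtain ⟨v, hv1, hv2, hv3⟩ := power Y letterY n
  refine ⟨[w, u, v], by simp, ?_, ?_⟩
  · intro z hz
    simp only [List.mem_cons, List.not_mem_nil, or_false] at hz
    rcases hz with rfl | rfl | rfl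
    · exact ⟨hw1, hw2⟩
    · exact ⟨hu1, hu2⟩
    · exact ⟨hv1, hv2⟩
  · simp [hw3, hu3, hv3, mul_assoc]

end Pool.Agent.N799.PW
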